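import Mathlib
import Pool.Graph.R_seed8.Helper188.KM

set_option autoImplicit false

namespace Pool.Agent.Results.MP_ced505_co.AnyFamily

open Pool.Agent.Helper188.KM

universe v

variable {α : Type}

/-- `c` is an `X`-factorization of the bi-infinite word `w`. -/
def IsFactorization (X : Finset (List α)) (w : ℤ → α) (c : ℤ → ℤ) : Prop :=
  StrictMono c ∧ ∀ n : ℤ, List.ofFn (fun i : Fin (c (n + 1) - c n).toNat => w (c n + (i : ℕ))) ∈ X

/-- Every word of `X` is a product of words of `Y`. -/
def Generates (Y X : Finset (List α)) : Prop :=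
  ∀ x ∈ X, ∃ L : List (List α), (∀ y ∈ L, y ∈ Y) ∧ L.flatten = x

/-- No positive period. -/
def NonPeriodic (w : ℤ → α) : Prop := ∀ p : ℤ, 0 < p → ∃ i : ℤ, w (i + p) ≠ w i

theorem ofFn_eq (w : ℤ → α) (a : ℤ) (m : ℕ) :
    List.ofFn (fun i : Fin m => w (a + (i : ℕ))) = (List.range m).map (fun i : ℕ => w (a + i)) := by
  apply List.ext_getElem
  · simp
  · intro i h1 h2
    simp

/-- Powers of one word. -/
theorem power (y : List α) (L : List (List α)) (hL : ∀ z ∈ L, z = y) :
    L.flatten.length = L.length * y.length ∧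
      ∀ i, i < L.flatten.length → L.flatten[i]? = y[i % y.length]? := by
  induction L with
  | nil => simp
  | cons a L ih =>
    obtain ⟨h1, h2⟩ := ih fun z hz => hL z (List.mem_cons_of_mem _ hz)
    have ha : a = y := hL a List.mem_cons_self
    subst ha
    refine ⟨by rw [List.flatten_cons, List.length_append, h1, List.length_cons]; ring, ?_⟩
    intro i hi
    rw [List.flatten_cons, List.length_append] at hi
    rw [List.flatten_cons]
    rcases lt_or_ge i a.length with h | h
    · rw [List.getElem?_append_left h, Nat.mod_eq_of_lt h]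
    · rw [List.getElem?_append_right h, h2 _ (by omega), Nat.mod_eq_sub_mod h]

/-- If one word generates `X`, a word with an `X`-factorization is periodic. -/
theorem not_single (X Y : Finset (List α)) (w : ℤ → α) (c : ℤ → ℤ) (hX : [] ∉ X)
    (hw : NonPeriodic w) (hc : IsFactorization X w c) (hY : Generates Y X) : 2 ≤ Y.card := by
  by_contra hcard
  obtain ⟨y, hy⟩ : ∃ y, Y ⊆ {y} := by
    rcases Nat.eq_zero_or_pos Y.card with h | h
    · exact ⟨[], by rw [Finset.card_eq_zero.1 h]; exact Finset.empty_subset _⟩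
    · obtain ⟨y, hy⟩ := Finset.card_eq_one.1 (show Y.card = 1 by omega)
      exact ⟨y, hy.le⟩
  have hpow : ∀ x ∈ X, y.length ∣ x.length ∧ 0 < x.length ∧
      ∀ i, i < x.length → x[i]? = y[i % y.length]? := by
    intro x hx
    obtain ⟨L, h1, rfl⟩ := hY x hx
    obtain ⟨h2, h3⟩ := power y L fun z hz => Finset.mem_singleton.1 (hy (h1 z hz))
    refine ⟨⟨L.length, by rw [h2]; ring⟩, ?_, h3⟩
    rcases Nat.eq_zero_or_pos L.flatten.length with h | h
    · exact absurd (List.length_eq_zero_iff.1 h ▸ hx) hX
    · exact h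
  set p := y.length with hp
  have hblock : ∀ n : ℤ, p ∣ (c (n + 1) - c n).toNat ∧ 0 < (c (n + 1) - c n).toNat ∧
      ∀ i : ℕ, i < (c (n + 1) - c n).toNat → some (w (c n + i)) = y[i % p]? := by
    intro n
    obtain ⟨h1, h2, h3⟩ := hpow _ (hc.2 n)
    rw [List.length_ofFn] at h1 h2 h3
    refine ⟨h1, h2, fun i hi => ?_⟩
    rw [← h3 i hi, List.getElem?_ofFn, dif_pos hi]
  have hp0 : 0 < p := Nat.pos_of_dvd_of_pos (hblock 0).1 (hblock 0).2.1
  obtain ⟨t, ht⟩ := hw p (by exact_mod_cast hp0)
  apply ht
  obtain ⟨n, h1, h2⟩ := exists_idx c hc.1 t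
  obtain ⟨i, hi⟩ : ∃ i : ℕ, t = c n + i := ⟨(t - c n).toNat, by omega⟩
  obtain ⟨d1, l1, b1⟩ := hblock n
  have hit : some (w t) = y[i % p]? := by rw [hi]; exact b1 i (by omega)
  have hgoal : some (w (t + p)) = y[i % p]? := by
    rcases lt_or_ge (i + p) (c (n + 1) - c n).toNat with h | h
    · have := b1 (i + p) h
      rw [Nat.add_mod_right] at this
      rw [← this, hi]
      congr 2
      push_cast
      ring
    · obtain ⟨d2, l2, b2⟩ := hblock (n + 1)
      set m := (c (n + 1) - c n).toNat with hm
      obtain ⟨q, hq⟩ := d1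
      have hlt : i + p - m < (c (n + 1 + 1) - c (n + 1)).toNat := by
        have := Nat.le_of_dvd l2 d2
        omega
      have := b2 (i + p - m) hlt
      have e : (i + p - m) % p = i % p := by
        have h3 : (i + p - m) + p * q = i + p := by omega
        rw [← Nat.add_mul_mod_self_left (i + p - m) p q, h3, Nat.add_mod_right]
      rw [e] at this
      rw [← this, hi]
      congr 2
      omega
  exact Option.some_injective _ (hgoal.trans hit.symm)

theorem km' (X : Finset (List α)) (w : ℤ → α) (k : ℕ) (c : Fin k → ℤ → ℤ) (hX : [] ∉ X)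
    (hk : k ≤ X.card) (hw : NonPeriodic w) (hc : ∀ j, IsFactorization X w (c j))
    (hdisj : ∀ i j, i ≠ j → Disjoint (Set.range (c i)) (Set.range (c j))) :
    ∃ Y : Finset (List α), Y.card ≤ X.card - k + 1 ∧ [] ∉ Y ∧ Generates Y X := by
  classical
  obtain ⟨Y, h1, h2⟩ := km X w k c hX hk hw (fun j => (hc j).1)
    (fun j n => by rw [← ofFn_eq]; exact (hc j).2 n)
    (fun i j hij m n he => Set.disjoint_left.mp (hdisj i j hij) ⟨m, rfl⟩ ⟨n, he.symm⟩)
  refine ⟨Y.erase [], (Finset.card_erase_le).trans h1, by simp, fun x hx => ?_⟩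
  obtain ⟨l, h3, h4⟩ := h2 x hx
  refine ⟨l.filter (fun z => z ≠ []), fun y hy => ?_, ?_⟩
  · rw [List.mem_filter] at hy
    exact Finset.mem_erase.2 ⟨by simpa using hy.2, h3 y hy.1⟩
  · rw [← h4]
    have := List.flatten_filter_ne_nil (L := l)
    simpa using this

/-- Let `w` be a non-periodic bi-infinite word over any alphabet and `X` a finite set of nonempty
words. Every family of pairwise disjoint `X`-factorizations of `w` is finite, and if it is nonempty
it has fewer than `|X|` members; and `r(X) + (number of members) ≤ |X| + 1`. -/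
theorem result :
    ∀ (α : Type) (X : Finset (List α)) (w : ℤ → α) (ι : Type v) (c : ι → ℤ → ℤ),
      [] ∉ X → NonPeriodic w → (∀ j, IsFactorization X w (c j)) →
      (∀ i j, i ≠ j → Disjoint (Set.range (c i)) (Set.range (c j))) →
      Finite ι ∧ (Nonempty ι → Nat.card ι < X.card) ∧
        (Nonempty ι → ∀ Y : Finset (List α), Generates Y X → 2 ≤ Y.card) ∧
        ∃ Y : Finset (List α), [] ∉ Y ∧ Generates Y X ∧ Y.card + Nat.card ι ≤ X.card + 1 := by
  classical
  intro α X w ι c hX hw hc hdisj
  by_cases hι : Nonempty ι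
  · obtain ⟨j⟩ := hι
    have hno : ∀ f : Fin X.card → ι, ¬ Function.Injective f := by
      intro f hf
      obtain ⟨Y, h1, -, h2⟩ := km' X w X.card (fun i => c (f i)) hX le_rfl hw (fun i => hc _)
        (fun i i' hi => hdisj _ _ fun e => hi (hf e))
      have := not_single X Y w (c j) hX hw (hc j) h2
      omega
    have hfin : Finite ι := by
      by_contra h
      have hinf : Infinite ι := not_finite_iff_infinite.1 h
      exact hno (fun i => Infinite.natEmbedding ι i.1)
        ((Infinite.natEmbedding ι).injective.comp Fin.val_injective)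
    have hlt : Nat.card ι < X.card := by
      by_contra h
      push Not at h
      exact hno (fun i => (Finite.equivFin ι).symm (Fin.castLE h i))
        ((Finite.equivFin ι).symm.injective.comp (Fin.castLE_injective h))
    refine ⟨hfin, fun _ => hlt, fun _ Y hY => not_single X Y w (c j) hX hw (hc j) hY, ?_⟩
    obtain ⟨Y, h1, h2, h3⟩ := km' X w (Nat.card ι) (fun i => c ((Finite.equivFin ι).symm i)) hX
      hlt.le hw (fun i => hc _)
      (fun i i' hi => hdisj _ _ fun e => hi ((Finite.equivFin ι).symm.injective e))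
    exact ⟨Y, h2, h3, by omega⟩
  · have hemp : IsEmpty ι := not_nonempty_iff.1 hι
    refine ⟨inferInstance, fun h => absurd h hι, fun h => absurd h hι, X, hX,
      fun x hx => ⟨[x], by simpa using hx, by simp⟩, ?_⟩
    rw [Nat.card_of_isEmpty]
    omega

end Pool.Agent.Results.MP_ced505_co.AnyFamily
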